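import Pool.Agent.H705.GB.Stm
import Pool.Agent.H344.TR.T_MOD
import Pool.Agent.H344.TR.T_UN
import Pool.Graph.R_pool_sql_team_seeded_707910d6.T2H19.GR.T_GEN
import Pool.Graph.R_pool_sql_team_seeded_707910d6.T2H19.GR.T_CRT

/-! # The gcd recursion for Goldbach pairs in the random model: the theorem from its parts -/

set_option autoImplicit false

namespace Pool.Agent.H705.GB

open MeasureTheory ProbabilityTheory Finset Filter Topology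
open Pool.Agent.H705.TR (PrimeIn Model un P_GEN P_CRT P_UN P_MOD)

/-- the final statement -/
def Main : Prop :=
    ((∀ m : ℕ, 2 ≤ m → (PrimeIn m m ↔ m.Prime)) ∧ (par (fun m => m / 2) = id) ∧
      ∀ N : ℕ, 3 ≤ N → ∀ a : ℕ → ℤ, a 1 = (N : ℤ) - 2 →
        (∀ n : ℕ, 2 ≤ n → a n = a (n - 1) - (Int.gcd (a (n - 1)) ((N : ℤ) - (-1) ^ n * ((N : ℤ) - n)) : ℤ)) →
        (∀ n : ℕ, 1 ≤ n → n ≤ F id N → (aseq id N n : ℤ) = a n) ∧ IsLeast {n : ℕ | 2 ≤ n ∧ a n = 0} (F id N)) ∧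
    (∀ (x : ℕ → ℕ) (N : ℕ), 3 ≤ N → IsLeast {n : ℕ | 2 ≤ n ∧ aseq x N n = 0} (F x N)) ∧
    (∀ M : ℕ → ℕ, (∀ m, Full m (M m)) →
      (∃ (Ω : Type) (_ : MeasurableSpace Ω) (P : Measure Ω) (Y : ℕ → Ω → ℕ), Model M P Y) ∧
      ∀ (Ω : Type) [MeasurableSpace Ω] (P : Measure Ω) (Y : ℕ → Ω → ℕ), Model M P Y → ∀ᵐ ω ∂P,
        (∀ ε : ℝ, 0 < ε → ∃ N₀ : ℕ, ∀ N : ℕ, N₀ ≤ N →
          PrimeIn (F (par fun m => Y m ω) N + 1) (par (fun m => Y m ω) (F (par fun m => Y m ω) N + 1)) ∧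
          PrimeIn (2 * N - (F (par fun m => Y m ω) N + 1))
            (par (fun m => Y m ω) (2 * N - (F (par fun m => Y m ω) N + 1))) ∧
          (N : ℝ) - F (par fun m => Y m ω) N ≤ (N : ℝ) ^ (1 / 2 + ε)) ∧
        ∀ t : ℝ, 0 < t → t ≤ 1 → Tendsto (fun x : ℕ =>
          (open Classical in (((range x).filter (fun N : ℕ =>
            (N : ℝ) - F (par fun m => Y m ω) N ≤ (N : ℝ) ^ (t / 2))).card : ℝ)) / x) atTop (𝓝 (t ^ 2)))

theorem main_of (hRUN : P_RUN) (hLIT : P_LIT) (hMOD : P_MOD) (hAS : P_AS) (hDEN : P_DEN) : Main := by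
  refine ⟨⟨hLIT.1, ?_, hLIT.2⟩, fun x N hN => (hRUN x N hN).1, fun M hM => ⟨hMOD M fun c => (hM c).1, ?_⟩⟩
  · funext m
    simp only [par, id]
    omega
  intro Ω _ P Y hY
  filter_upwards [hAS Ω M P Y hM hY, hDEN Ω M P Y hM hY] with ω h1 h2
  refine ⟨fun ε hε => ?_, h2⟩
  obtain ⟨N₀, hN₀⟩ := eventually_atTop.1 (h1 ε hε)
  exact ⟨N₀, fun N hN => ⟨(hN₀ N hN).1.1, (hN₀ N hN).1.2, (hN₀ N hN).2⟩⟩

/-- the shape of the derived packages -/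
theorem final (hRUN : P_RUN) (hST2 : P_ST2) (hLIT : P_RUN → P_LIT) (hFLB : P_FLB) (hJMP : P_JMP)
    (hNXT : P_FLB → P_JMP → P_NXT) (hLNK : P_NXT → P_LNK) (hLOW : P_FLB → P_LNK → P_LOW)
    (hUP : P_FLB → P_JMP → P_LNK → P_UP) (hRCH : P_RCH) (hIND : P_NXT → P_RCH → P_GEN → P_IND)
    (hPR : P_UN → P_GEN → P_PR) (hBAD : P_JMP → P_UN → P_BAD)
    (hPRD : P_CRT → P_PRD) (hNT1 : P_PRD → P_NT1) (hNT2 : P_PRD → P_NT2) (hNT3 : P_PRD → P_NT3)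
    (hAS : P_RUN → P_ST2 → P_FLB → P_LNK → P_RCH → P_IND → P_PR → P_NT1 → P_BAD → P_AS)
    (hLAW : P_RUN → P_ST2 → P_LOW → P_UP → P_RCH → P_IND → P_PR → P_NT1 → P_NT2 → P_NT3 → P_BAD → P_LAW)
    (hLLN : P_GEN → P_LLN)
    (hDEN : P_RUN → P_FLB → P_LAW → P_LLN → P_DEN) : Main := by
  have gen : P_GEN := Pool.Agent.T2H19.GR.T_GEN
  have crt : P_CRT := Pool.Agent.T2H19.GR.T_CRT
  have mod := Pool.Agent.H344.TR.T_MOD
  have un' := Pool.Agent.H344.TR.T_UN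
  have nxt' := hNXT hFLB hJMP
  have lnk := hLNK nxt'
  have low := hLOW hFLB lnk
  have up := hUP hFLB hJMP lnk
  have ind := hIND nxt' hRCH gen
  have prd := hPRD crt
  have pr := hPR un' gen
  have bad := hBAD hJMP un'
  have law := hLAW hRUN hST2 low up hRCH ind pr (hNT1 prd) (hNT2 prd) (hNT3 prd) bad
  exact main_of hRUN (hLIT hRUN) mod (hAS hRUN hST2 hFLB lnk hRCH ind pr (hNT1 prd) bad)
    (hDEN hRUN hFLB law (hLLN gen))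

end Pool.Agent.H705.GB
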