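import Pool.Agent.H705.TR.Stm

/-! # The gcd recursion for Goldbach pairs in the random model: definitions

`a (n) = a (n - 1) - gcd (a (n - 1), n)` for even `n` and `a (n) = a (n - 1) - gcd (a (n - 1), 2 N - n)` for odd `n`. With the
level `c = a (n - 1) + n` the gcd is `gcd (c, n)` for even `n` and `gcd (2 N - c, n + 2 (N - c))` for odd `n`. The level does not
change if the gcd is `1`, and falls by `g - 1` at a gcd `g`; at the zero `f` the level is `f + 1`. In the random model every
number `m` is replaced by a random integer `2 Y m + m % 2` of the same parity. The definitions `PrimeIn`, `Model`, `un` and the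
statements `P_GEN`, `P_CRT`, `P_UN`, `P_MOD` are those of `Pool.Agent.H705.TR`. -/

set_option autoImplicit false

namespace Pool.Agent.H705.GB

open MeasureTheory ProbabilityTheory Finset Filter Topology
open Pool.Agent.H705.TR (PrimeIn Model un P_GEN P_CRT P_UN P_MOD)

open Classical in
/-- the substitute of `gcd (c, n)` (`n` even) and of `gcd (2 N - c, n + 2 (N - c))` (`n` odd), `n < c ≤ N`, if the numbers `c` and
`2 N - c` are replaced by `y` and `y'`; it is `1` if `c`, respectively `2 N - c`, is prime in the model -/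
noncomputable def G (N c n y y' : ℕ) : ℕ :=
  if n % 2 = 0 then (if PrimeIn c y then 1 else Nat.gcd y n)
  else (if PrimeIn (2 * N - c) y' then 1 else Nat.gcd y' (n + 2 * (N - c)))

/-- the recursion `a (1) = N - 2`, `a (n) = a (n - 1) - G`, `c = a (n - 1) + n`, with every number `m` replaced by `x m` -/
noncomputable def aseq (x : ℕ → ℕ) (N : ℕ) : ℕ → ℕ
  | 0 => 0
  | 1 => N - 2
  | n + 2 => aseq x N (n + 1) - G N (aseq x N (n + 1) + (n + 2)) (n + 2) (x (aseq x N (n + 1) + (n + 2)))
      (x (2 * N - (aseq x N (n + 1) + (n + 2))))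

/-- the least `n ≥ 2` with `a (n) = 0` -/
noncomputable def F (x : ℕ → ℕ) (N : ℕ) : ℕ := sInf {n : ℕ | 2 ≤ n ∧ aseq x N n = 0}

/-- the substitutes `2 v m + m % 2` -/
def par (v : ℕ → ℕ) (m : ℕ) : ℕ := 2 * v m + m % 2

/-- `k` is positive and divisible by all the numbers `1, …, m` -/
def Full (m k : ℕ) : Prop := 0 < k ∧ ∀ d : ℕ, 1 ≤ d → d ≤ m → d ∣ k

/-! ## Internal notions -/

/-- the level at the zero, `c` = the level before step `n` (so `a (n - 1) = c - n`) -/
noncomputable def fl (x : ℕ → ℕ) (N n c : ℕ) : ℕ :=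
  if h : c ≤ n then n else fl x N (n + 1) (c - n - max 1 (G N c n (x c) (x (2 * N - c))) + (n + 1))
termination_by c - n
decreasing_by
  have h1 : 1 ≤ max 1 (G N c n (x c) (x (2 * N - c))) := le_max_left _ _
  omega

/-- `c` and `2 N - c` are prime in the model -/
def Free (N c y y' : ℕ) : Prop := PrimeIn c y ∧ PrimeIn (2 * N - c) y'

/-- no prime `p ≤ z` with `p ^ 2 ≤ m` divides `y` -/
def r (z m y : ℕ) : Prop := ∀ p : ℕ, p.Prime → p ≤ z → p ^ 2 ≤ m → ¬ p ∣ y

/-- the level is rough -/
def R (z N c y y' : ℕ) : Prop := r z c y ∧ r z (2 * N - c) y'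

/-- the time of the first jump from time `n` on -/
noncomputable def jm (N n c y y' : ℕ) : ℕ := sInf {m : ℕ | n ≤ m ∧ G N c m y y' ≠ 1}

/-- the first jump -/
noncomputable def jp (N n c y y' : ℕ) : ℕ := G N c (jm N n c y y') y y'

/-- the time after the first jump -/
noncomputable def nt (N n c y y' : ℕ) : ℕ := jm N n c y y' + 1

/-- the level after the first jump -/
noncomputable def nl (N n c y y' : ℕ) : ℕ := min (c - 1) (c + 1 - jp N n c y y')

/-- one of the first `K` levels is rough, the first such level satisfies `Q`, and before it at most `j` jumps are `> B` -/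
def Reach (z B N : ℕ) (Q : ℕ → ℕ → ℕ → Prop) : ℕ → ℕ → ℕ → ℕ → (ℕ → ℕ) → Prop
  | 0, _, _, _, _ => False
  | K + 1, j, n, c, x =>
      (R z N c (x c) (x (2 * N - c)) ∧ Q c (x c) (x (2 * N - c))) ∨
      (¬ R z N c (x c) (x (2 * N - c)) ∧ jp N n c (x c) (x (2 * N - c)) ≤ B ∧
        Reach z B N Q K j (nt N n c (x c) (x (2 * N - c))) (nl N n c (x c) (x (2 * N - c))) x) ∨
      (¬ R z N c (x c) (x (2 * N - c)) ∧ B < jp N n c (x c) (x (2 * N - c)) ∧ 1 ≤ j ∧
        Reach z B N Q K (j - 1) (nt N n c (x c) (x (2 * N - c))) (nl N n c (x c) (x (2 * N - c))) x)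

/-- the global constants: roughness `z`, jump bound `B`, number `N`, time bound `T`, loss bound `H` -/
def Glob (z B N T H L : ℕ) : Prop := 1 ≤ z ∧ T ≤ B ∧ L + 3 * H + 2 * T + 20 ≤ N

/-- there is enough room for `K` levels which are not rough, and `j` large jumps -/
def Ok (z B N T H K j n c : ℕ) : Prop :=
  c % 2 = 1 ∧ 1 ≤ n ∧ c ≤ N ∧ n + K * (2 * z + 1) ≤ T ∧ 3 ^ j * ((N - c) + K * B + T) ≤ H

end Pool.Agent.H705.GB
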