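import Pool.Agent.H705.GB.Asm
import Pool.Agent.H142.GB.T_RUN
import Pool.Agent.H142.GB.T_UP
import Pool.Agent.H142.GB.T_NT3
import Pool.Agent.H348.GB.T_ST2
import Pool.Agent.H294.GB.T_LIT
import Pool.Agent.H79.GB.T_FLB
import Pool.Agent.H457.GB.T_JMP
import Pool.Agent.H484.GB.T_NXT
import Pool.Agent.H726.GB.T_LNK
import Pool.Agent.H650.GB.T_LOW
import Pool.Agent.H25.GB.T_RCH
import Pool.Agent.H280.GB.T_IND
import Pool.Agent.H390.GB.T_PR
import Pool.Agent.H725.GB.T_BAD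
import Pool.Agent.H56.GB.T_PRD
import Pool.Agent.H571.GB.T_NT1
import Pool.Agent.H405.GB.T_NT2
import Pool.Agent.H494.GB.T_AS
import Pool.Agent.H167.GB.T_LAW
import Pool.Agent.H894.GB.T_LLN
import Pool.Agent.H539.GB.T_DEN

/-! # The gcd recursion for Goldbach pairs in the random model: end of the proof -/

set_option autoImplicit false

namespace Pool.Agent.H705.GB

open Pool.Agent.H705.TR (PrimeIn Model un P_GEN P_CRT P_UN P_MOD)

theorem main : Main := by
  have gen : P_GEN := Pool.Agent.T2H19.GR.T_GEN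
  have crt : P_CRT := Pool.Agent.T2H19.GR.T_CRT
  have un' := Pool.Agent.H344.TR.T_UN
  have run := Pool.Agent.H142.GB.T_RUN
  have st2 := Pool.Agent.H348.GBst.T_ST2
  have flb := Pool.Agent.H79.GB.T_FLB
  have jmp := Pool.Agent.H457.GB.T_JMP
  have nx := Pool.Agent.H484.GB.T_NXT flb jmp
  have lnk := Pool.Agent.H726.GB.T_LNK nx
  have low := Pool.Agent.H650.GB.T_LOW flb lnk
  have up := Pool.Agent.H142.GB.T_UP flb jmp lnk
  have rch := Pool.Agent.H25.GB.T_RCH
  have ind := Pool.Agent.H280.GB.T_IND nx rch gen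
  have pr := Pool.Agent.H390.GB.T_PR un' gen
  have bad := Pool.Agent.H725.GB.T_BAD jmp un'
  have prd := Pool.Agent.H56.GB.PRD.T_PRD crt
  have nt1 := Pool.Agent.H571.GB.T_NT1 prd
  have nt2 := Pool.Agent.H405.GB.T_NT2 prd
  have nt3 := Pool.Agent.H142.GB.T_NT3 prd
  have law := Pool.Agent.H167.GB.T_LAW run st2 low up rch ind pr nt1 nt2 nt3 bad
  exact main_of run (Pool.Agent.H294.GB.LIT.T_LIT run) Pool.Agent.H344.TR.T_MOD
    (Pool.Agent.H494.GB.T_AS run st2 flb lnk rch ind pr nt1 bad)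
    (Pool.Agent.H539.GB.T_DEN run flb law (Pool.Agent.H894.GB.LLN.T_LLN gen))

end Pool.Agent.H705.GB
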