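import Pool.Agent.H705.GB.Defs

/-! # The gcd recursion for Goldbach pairs in the random model: statements of the packages

This is the sister of the project TR (`Pool.Agent.H705.TR.Stm`, all packages proved): for most packages the proof is an
adaptation of the TR proof with the same name; the TR files are on main:
`H166/TR/T_RUN, T_JMP, T_IND`, `H457/TR/T_LIT`, `H44/TR/T_FLB, T_LOW`, `H163/TR/T_NXT, T_LNK`, `H665/TR/T_UP`,
`H344/TR/T_MOD, T_UN, T_RCH`, `H969/TR/T_PRD, T_LLN`, `H580/TR/T_NT1`, `H600/TR/T_NT2`, `H23/TR/T_AS`, `H383/TR/T_LAW`,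
`H363/TR/T_DEN` (folder `Pool/Agent/`).

MAIN IDEA. The level `c` is constant as long as the gcds are `1` and falls by `g - 1` at a gcd `g`. All the levels from time `3`
on are odd. The substitutes of `c` and `2 N - c` are fresh when the level `c` is reached. If both are prime in the model
(`Free`), the level never changes again. If not, there is a jump within `2 p` steps, `p` a prime factor `≤ √(2 N)`. New compared
with TR: at odd times the jump can be as large as `n + 2 (N - c)`; jumps `> B` are rare (divisor bound), and `j` of them increase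
`N - c` at most by a factor `3 ^ j`. -/

set_option autoImplicit false

namespace Pool.Agent.H705.GB

open MeasureTheory ProbabilityTheory Finset Filter Topology
open Pool.Agent.H705.TR (PrimeIn Model un P_GEN P_CRT P_UN P_MOD)

/-! ## Deterministic part -/

/-- RUN. The recursion and the level. Proof: as `TR` RUN. For `n ≥ 1` with `a n ≠ 0`: `G … (n + 1) … ≥ 1` (the second argument of
the gcd is positive), so `a` decreases strictly until it is `0`; `a 1 = N - 2 > 0`, so the least zero is `≥ 2`. By strong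
induction on `a n`: if `a k ≠ 0` for `1 ≤ k < n`, `n ≥ 1`, then `F x N + 1 = fl x N (n + 1) (a n + (n + 1))`; take `n = 1`:
`c = N - 2 + 2 = N`. -/
def P_RUN : Prop :=
  ∀ (x : ℕ → ℕ) (N : ℕ), 3 ≤ N → IsLeast {n : ℕ | 2 ≤ n ∧ aseq x N n = 0} (F x N) ∧ F x N + 1 = fl x N 2 N

/-- ST2. The first step. Proof: unfold `fl` once at `n = 2`, `c = N`. If `N` is odd then `par v N` is odd, so `G = 1`
(`gcd (odd, 2) = 1`) and the level stays `N = N - (N + 1) % 2`. If `N` is even then `par v N` is even, `2 ^ 2 ≤ N`, so `PrimeIn`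
fails and `G = gcd (even, 2) = 2`: the level is `N - 2 - 2 + 3 = N - 1`. -/
def P_ST2 : Prop :=
  ∀ (v : ℕ → ℕ) (N : ℕ), 4 ≤ N →
    fl (par v) N 2 N = fl (par v) N 3 (N - (N + 1) % 2) ∧ (N - (N + 1) % 2) % 2 = 1

/-- LIT. For `x m = m` it is the recursion of the problem. Proof: (1) as in TR. (2) For `1 ≤ n < c ≤ N`: if `n` is even then
`gcd (c - n, n) = gcd (c, n)`, which is `1` if `c` is prime, as `0 < n < c`. If `n` is odd then
`gcd (c - n, 2 N - n) = gcd (2 N - c, n + 2 (N - c))` (as `2 N - n = (2 N - c) + (c - n)` and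
`n + 2 (N - c) = (2 N - c) - (c - n)`), which is `1` if `2 N - c` is prime, as `0 < n + 2 (N - c) < 2 N - c`. The level
`c = a (n - 1) + n` is `≤ N` by induction as long as `a (n - 1) > 0` (`a` decreases by at least one). So by induction
`(aseq id N n : ℤ) = a n` for `1 ≤ n ≤ F`, as in TR LIT. -/
def P_LIT : Prop :=
  (∀ m : ℕ, 2 ≤ m → (PrimeIn m m ↔ m.Prime)) ∧
  ∀ N : ℕ, 3 ≤ N → ∀ a : ℕ → ℤ, a 1 = (N : ℤ) - 2 →
    (∀ n : ℕ, 2 ≤ n → a n = a (n - 1) - (Int.gcd (a (n - 1)) ((N : ℤ) - (-1) ^ n * ((N : ℤ) - n)) : ℤ)) →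
    (∀ n : ℕ, 1 ≤ n → n ≤ F id N → (aseq id N n : ℤ) = a n) ∧ IsLeast {n : ℕ | 2 ≤ n ∧ a n = 0} (F id N)

/-- FLB. Simple facts on the level at the end. (1) bounds, (2) locality, (3) free run, (4) a run without jumps.
Proofs: as TR FLB: strong induction on `c - n`, unfolding `fl`. -/
def P_FLB : Prop :=
  (∀ (x : ℕ → ℕ) (N n c : ℕ), n ≤ fl x N n c ∧ fl x N n c ≤ max n c) ∧
  (∀ (x x' : ℕ → ℕ) (N w n c : ℕ), (∀ i, w ≤ i → i ≤ c → x i = x' i ∧ x (2 * N - i) = x' (2 * N - i)) →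
    (w ≤ fl x N n c ↔ w ≤ fl x' N n c)) ∧
  (∀ (x : ℕ → ℕ) (N n c : ℕ), n ≤ c → Free N c (x c) (x (2 * N - c)) → fl x N n c = c) ∧
  ∀ (x : ℕ → ℕ) (N n c k : ℕ), n + k ≤ c → (∀ i < k, G N c (n + i) (x c) (x (2 * N - c)) = 1) →
    fl x N n c = fl x N (n + k) c

/-- JMP. The first jump. Proof: there is `m₀ ∈ [n, n + 2 p)` with `G N c m₀ y y' ≠ 1`. First case: `p ∣ y`, `p ^ 2 ≤ c`: take `m₀`
even and divisible by `p` (`p` odd: Chinese remainder theorem, or a multiple of `2 p`): `PrimeIn c y` fails and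
`p ∣ gcd (y, m₀)`, `m₀ > 0`. Second case: take `m₀` odd with `p ∣ m₀ + 2 (N - c)`. So for `m = jm N n c y y'` (`Nat.sInf_mem`,
`Nat.sInf_le`): `n ≤ m ≤ m₀`, `G ≠ 1`, so `PrimeIn` fails at `m`, and `G = gcd (y, m)` (`m` even), `gcd (y', m + 2 (N - c))` (`m`
odd), positive as `m ≥ 1`. -/
def P_JMP : Prop :=
  ∀ N c y y' n p : ℕ, 1 ≤ n → p.Prime → p ≠ 2 → (p ^ 2 ≤ c ∧ p ∣ y ∨ p ^ 2 ≤ 2 * N - c ∧ p ∣ y') →
    n ≤ jm N n c y y' ∧ jm N n c y y' < n + 2 * p ∧ (∀ i, n ≤ i → i < jm N n c y y' → G N c i y y' = 1) ∧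
    2 ≤ jp N n c y y' ∧
    (jm N n c y y' % 2 = 0 ∧ jp N n c y y' ∣ y ∧ jp N n c y y' ≤ jm N n c y y' ∨
      jm N n c y y' % 2 = 1 ∧ jp N n c y y' ∣ y' ∧ jp N n c y y' ∣ jm N n c y y' + 2 * (N - c))

/-- NXT (from FLB, JMP). One level which is not rough. Write `m = jm`, `g = jp`. Proof: `¬ R` gives a prime `p ≤ z` as in JMP
(`p ≠ 2` as `y`, `y'` are odd), so `m < n + 2 z`, `m + 1 ≤ n + (2 z + 1) ≤ T` and `g ≤ m + 2 (N - c) ≤ T + 2 H` (note
`N - c ≤ H` because of `Ok`), `m + g ≤ 2 T + 2 H ≤ N - H ≤ c`. `g` divides `y` or `y'`, so `g` is odd, `g ≥ 3`, and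
`nl = c + 1 - g` is odd. FLB (4) and one unfolding: `fl x N n c = fl x N m c = fl x N (m + 1) (c - m - g + (m + 1))`. `Ok` for the
new state: `N - nl = N - c + g - 1`. If `g ≤ B`: `(N - nl) + K B + T ≤ (N - c) + (K + 1) B + T`. If `g > B` (`≥ T > m`): then `m`
is odd (otherwise `g ≤ m`), `N - nl ≤ 3 (N - c) + T`, and
`3 ^ (j - 1) (3 (N - c) + T + K B + T) ≤ 3 ^ j ((N - c) + (K + 1) B + T)`. -/
def P_NXT : Prop :=
  ∀ z B N T H L K j n c y y' : ℕ, Glob z B N T H L → Ok z B N T H (K + 1) j n c → ¬ R z N c y y' →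
    y % 2 = 1 → y' % 2 = 1 →
    (jp N n c y y' ≤ B → Ok z B N T H K j (nt N n c y y') (nl N n c y y')) ∧
    (B < jp N n c y y' → 1 ≤ j → Ok z B N T H K (j - 1) (nt N n c y y') (nl N n c y y')) ∧
    nl N n c y y' < c ∧
    ∀ x : ℕ → ℕ, x c = y → x (2 * N - c) = y' → fl x N n c = fl x N (nt N n c y y') (nl N n c y y')

/-- LNK (from NXT). The first rough level. Proof: induction on `K` (for all `j`, `n`, `c`); if the level is rough take `n' = n`,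
`c' = c`; if not, the induction hypothesis for the next level (in the third case of `Reach` with `j - 1`). `N ≤ c + H` follows
from `Ok`, `2 * N - c` is odd. -/
def P_LNK : Prop :=
  ∀ (z B N T H L : ℕ) (Q : ℕ → ℕ → ℕ → Prop) (K j n c : ℕ) (x : ℕ → ℕ), Glob z B N T H L → Ok z B N T H K j n c →
    (∀ m, x m % 2 = m % 2) → Reach z B N Q K j n c x →
    ∃ n' c' : ℕ, 1 ≤ n' ∧ n' ≤ T ∧ c' % 2 = 1 ∧ c' ≤ N ∧ N ≤ c' + H ∧ fl x N n c = fl x N n' c' ∧
      R z N c' (x c') (x (2 * N - c')) ∧ Q c' (x c') (x (2 * N - c'))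

/-- LOW (from FLB, LNK). Proof: LNK, FLB (3) (`n' ≤ T ≤ N - H ≤ c'`). -/
def P_LOW : Prop :=
  ∀ (z B N T H L K j n c : ℕ) (x : ℕ → ℕ), Glob z B N T H L → Ok z B N T H K j n c → (∀ m, x m % 2 = m % 2) →
    Reach z B N (Free N) K j n c x →
    fl x N n c ≤ N ∧ N ≤ fl x N n c + H ∧ Free N (fl x N n c) (x (fl x N n c)) (x (2 * N - fl x N n c))

/-- UP (from FLB, JMP, LNK). If the first rough level is not free then the level falls by more than `z`. Proof: take `n'`, `c'`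
from LNK, `y = x c'`, `y' = x (2 N - c')`; `c' ≥ N - H ≥ L`. As `¬ Free` there is a prime `p` as in JMP, `p ≤ √(2 N)`, `p ≠ 2`.
`m = jm < n' + 2 p ≤ T + 2 √(2 N)`, `g = jp`. FLB (4), one unfolding and FLB (1):
`fl x N n' c' ≤ max (m + 1) (c' - m - g + (m + 1)) ≤ max (m + 1) (c' + 1 - g)`. Let `q` be a prime factor of `g`; `q ∣ y` or `q ∣ y'`, so
`q > z` (otherwise `q ^ 2 ≤ z ^ 2 ≤ L ≤ c' ≤ 2 N - c'` contradicts `R`). So `g ≥ z + 1` and `fl ≤ c' - z` (also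
`m + 1 ≤ T + 2 √(2 N) ≤ L - z ≤ c' - z`). -/
def P_UP : Prop :=
  ∀ (z B N T H L K j n c : ℕ) (x : ℕ → ℕ), Glob z B N T H L → Ok z B N T H K j n c → (∀ m, x m % 2 = m % 2) →
    z ^ 2 ≤ L → T + 2 * Nat.sqrt (2 * N) + z + 2 ≤ L →
    Reach z B N (fun c y y' => ¬ Free N c y y') K j n c x → fl x N n c + z ≤ N

/-- RCH. Facts on `Reach`. Proofs: induction on `K`; for (2): `nl ≤ c` always, because of `min (c - 1)`. -/
def P_RCH : Prop :=
  (∀ (z B N : ℕ) (Q Q' : ℕ → ℕ → ℕ → Prop) (K j n c : ℕ) (x : ℕ → ℕ), (∀ c y y', R z N c y y' → Q c y y' → Q' c y y') →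
    Reach z B N Q K j n c x → Reach z B N Q' K j n c x) ∧
  (∀ (z B N : ℕ) (Q : ℕ → ℕ → ℕ → Prop) (K j n c : ℕ) (x x' : ℕ → ℕ),
    (∀ i ≤ c, x i = x' i ∧ x (2 * N - i) = x' (2 * N - i)) →
    (Reach z B N Q K j n c x ↔ Reach z B N Q K j n c x')) ∧
  (∀ (z B N : ℕ) (Q : ℕ → ℕ → ℕ → Prop) (K j n c : ℕ) (x : ℕ → ℕ), Reach z B N (fun _ _ _ => True) K j n c x →
    Reach z B N Q K j n c x ∨ Reach z B N (fun c y y' => ¬ Q c y y') K j n c x) ∧
  ∀ z N c y y' : ℕ, (Free N c y y' → R z N c y y') ∧ (2 * N < (z + 1) ^ 2 → c ≤ N → R z N c y y' → Free N c y y')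

/-! ## Probability -/

/-- IND (from NXT, RCH, GEN). The first rough level. `x ω = par (fun i => Y i ω)`. Proof: as TR IND (`H166/TR/T_IND.lean`).
Induction on `K` for all `j`, `n`, `c`. Write `E_Q (K, j, n, c)` for the probability of `Reach z B N Q K j n c (x ω)`, an event which
depends only on the `Y i` and `Y (2 N - i)`, `i ≤ c` (RCH (2)). For `K + 1`: the event is the disjoint union of `{R ∧ Q}` at the level
`c` and of the events `{Y c = u, Y (2 N - c) = u'} ∩ {Reach K j' (nt, nl)}` over `u < M c`, `u' < M (2 N - c)` with `¬ R`, where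
`j' = j` if `jp ≤ B` and `j' = j - 1` if `jp > B`, `j ≥ 1` (nothing if `jp > B`, `j = 0`). As `nl < c ≤ N` (NXT; `par … c` and
`par … (2 N - c)` are odd) the event `Reach K j' (nt, nl)` depends only on the `Y i` with `i < c` or `2 N - c < i ≤ 2 N`, and is
independent of `{Y c = u, Y (2 N - c) = u'}` (GEN; also if `c = N`). The levels `nl` in the sum are `< N`, so their error
term is `0`. Third inequality: let `q = P (¬ R ∧ jp ≤ B)`, `b = P (¬ R ∧ B < jp) ≤ β`, `q + b = 1 - P (R) ≤ 1 - δ`. By the induction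
hypothesis `1 - E_True (K + 1, j) ≤ q ((1 - δ) ^ K + (K β) ^ (j + 1)) + b ((1 - δ) ^ K + (K β) ^ j)` (for `j = 0` simply `b · 1`), which is
`≤ (1 - δ) ^ (K + 1) + (K β) ^ (j + 1) + β (K β) ^ j ≤ (1 - δ) ^ (K + 1) + ((K + 1) β) ^ (j + 1)`. -/
def P_IND : Prop :=
  ∀ (Ω : Type) [MeasurableSpace Ω] (M : ℕ → ℕ) (P : Measure Ω) (Y : ℕ → Ω → ℕ), Model M P Y →
    ∀ (z B N T H L : ℕ) (Q : ℕ → ℕ → ℕ → Prop) (ρ₁ ρ₂ δ β e₀ : ℝ), Glob z B N T H L →
    0 ≤ δ → δ ≤ 1 → 0 ≤ β → 0 ≤ e₀ →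
    (∀ c, c % 2 = 1 → c ≤ N → N ≤ c + H →
      ρ₁ * P.real {ω | R z N c (par (fun i => Y i ω) c) (par (fun i => Y i ω) (2 * N - c))} - (if c = N then e₀ else 0) ≤
        P.real {ω | R z N c (par (fun i => Y i ω) c) (par (fun i => Y i ω) (2 * N - c)) ∧
          Q c (par (fun i => Y i ω) c) (par (fun i => Y i ω) (2 * N - c))} ∧
      P.real {ω | R z N c (par (fun i => Y i ω) c) (par (fun i => Y i ω) (2 * N - c)) ∧
          Q c (par (fun i => Y i ω) c) (par (fun i => Y i ω) (2 * N - c))} ≤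
        ρ₂ * P.real {ω | R z N c (par (fun i => Y i ω) c) (par (fun i => Y i ω) (2 * N - c))} +
          (if c = N then e₀ else 0) ∧
      δ ≤ P.real {ω | R z N c (par (fun i => Y i ω) c) (par (fun i => Y i ω) (2 * N - c))}) →
    (∀ n c, c % 2 = 1 → c ≤ N → N ≤ c + H → 1 ≤ n → n + (2 * z + 1) ≤ T →
      P.real {ω | ¬ R z N c (par (fun i => Y i ω) c) (par (fun i => Y i ω) (2 * N - c)) ∧
        B < jp N n c (par (fun i => Y i ω) c) (par (fun i => Y i ω) (2 * N - c))} ≤ β) →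
    ∀ K j n c : ℕ, Ok z B N T H K j n c →
      MeasurableSet {ω | Reach z B N Q K j n c (par fun i => Y i ω)} ∧
      ρ₁ * P.real {ω | Reach z B N (fun _ _ _ => True) K j n c (par fun i => Y i ω)} - (if c = N then e₀ else 0) ≤
        P.real {ω | Reach z B N Q K j n c (par fun i => Y i ω)} ∧
      P.real {ω | Reach z B N Q K j n c (par fun i => Y i ω)} ≤
        ρ₂ * P.real {ω | Reach z B N (fun _ _ _ => True) K j n c (par fun i => Y i ω)} +
          (if c = N then e₀ else 0) ∧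
      1 - (1 - δ) ^ K - (K * β) ^ (j + 1) ≤
        P.real {ω | Reach z B N (fun _ _ _ => True) K j n c (par fun i => Y i ω)}

/-- PR (from UN, GEN). Proof: `par (fun i => Y i ω) c = 2 Y c ω + 1` for odd `c`; UN for the first statement; GEN with
`S = {c}`, `T = {c'}` and UN for the second one. -/
def P_PR : Prop :=
  ∀ (Ω : Type) [MeasurableSpace Ω] (M : ℕ → ℕ) (P : Measure Ω) (Y : ℕ → Ω → ℕ), Model M P Y →
    (∀ (c : ℕ) (Q : ℕ → Prop), c % 2 = 1 →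
      P.real {ω | Q (par (fun i => Y i ω) c)} = un (M c) (fun y => Q (2 * y + 1))) ∧
    ∀ (c c' : ℕ) (Q Q' : ℕ → Prop), c % 2 = 1 → c' % 2 = 1 → c ≠ c' →
      P.real {ω | Q (par (fun i => Y i ω) c) ∧ Q' (par (fun i => Y i ω) c')} =
        un (M c) (fun y => Q (2 * y + 1)) * un (M c') (fun y => Q' (2 * y + 1))

/-- BAD (from JMP, UN). Large jumps are rare. Proof: if `¬ R` and `g = jp > B` then by JMP `m = jm < n + 2 z ≤ T ≤ B`, so `m` is
odd (otherwise `g ≤ m`), and `g ∣ y'`, `g ∣ m + 2 (N - c)`, `B < g`, `y' = 2 Y (2 N - c) + 1`. Here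
`m + 2 (N - c) ≤ T + 2 H ≤ N ≤ 2 N - c`. For a number `g ≤ 2 N - c`: the probability of `g ∣ 2 Y (2 N - c) + 1` is `0` if `g` is even
and `1 / g` if `g` is odd (`g ∣ M (2 N - c)`, the residues modulo `g` are uniformly distributed, `2` is invertible modulo `g`;
UN). The union bound over `m ∈ [n, n + 2 z)` and over the divisors `g > B` of `m + 2 (N - c)`, whose number is `≤ C_ε N ^ ε`
(divisor bound: several copies in the library and on main, `grep -r card_divisors`; if you want, take it as an additional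
hypothesis `hdiv : ∀ ε : ℝ, 0 < ε → ∃ C : ℝ, ∀ n : ℕ, 1 ≤ n → (n.divisors.card : ℝ) ≤ C * (n : ℝ) ^ ε`), gives
`2 z · C_ε N ^ ε / B`. -/
def P_BAD : Prop :=
  ∀ ε : ℝ, 0 < ε → ∃ C : ℝ, 0 < C ∧
    ∀ (Ω : Type) [MeasurableSpace Ω] (M : ℕ → ℕ) (P : Measure Ω) (Y : ℕ → Ω → ℕ), (∀ m, Full m (M m)) → Model M P Y →
    ∀ z B N T H L : ℕ, Glob z B N T H L → ∀ n c, c % 2 = 1 → c ≤ N → N ≤ c + H → 1 ≤ n → n + (2 * z + 1) ≤ T →
      P.real {ω | ¬ R z N c (par (fun i => Y i ω) c) (par (fun i => Y i ω) (2 * N - c)) ∧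
        B < jp N n c (par (fun i => Y i ω) c) (par (fun i => Y i ω) (2 * N - c))} ≤ C * z * (N : ℝ) ^ ε / B

/-! ## Number theory -/

/-- PRD (from CRT). Proof: `P_CRT` with `Q l s = ¬ l ∣ 2 s + 1`; for an odd prime `l` exactly one residue `s` modulo `l` has
`l ∣ 2 s + 1` (namely `s = (l - 1) / 2`). -/
def P_PRD : Prop :=
  ∀ (k : ℕ) (S : Finset ℕ), 0 < k → (∀ l ∈ S, l.Prime ∧ l ≠ 2 ∧ l ∣ k) →
    un k (fun y => ∀ l ∈ S, ¬ l ∣ 2 * y + 1) = ∏ l ∈ S, (1 - 1 / (l : ℝ))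

/-- NT1 (from PRD). Proof: as TR NT1 (`H580/TR/T_NT1.lean`): if no odd prime `l` with `l ^ 2 ≤ m` divides `2 y + 1` then
`r z m (2 y + 1)`; the product of `1 - 1 / l` over the odd primes `l ≤ √m` is `≥ c₀ / log m`. -/
def P_NT1 : Prop :=
  ∃ c₀ : ℝ, 0 < c₀ ∧ ∀ z m k : ℕ, 3 ≤ m → Full m k → c₀ / Real.log m ≤ un k (fun y => r z m (2 * y + 1))

/-- NT2 (from PRD). Proof: as TR NT2 (`H600/TR/T_NT2.lean`): `z = ⌊N ^ (s/2)⌋`, `z ^ 2 ≤ N / 2 ≤ m`, so `r z m (2 y + 1)` means that no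
odd prime `l ≤ z` divides `2 y + 1`, and `PrimeIn m (2 y + 1)` that no odd prime `l` with `l ^ 2 ≤ m` does; the quotient of the
probabilities is the product of `1 - 1 / l` over the primes `z < l ≤ √m`, which tends to `s`, uniformly in
`m ∈ [N/2, 2 N]`. -/
def P_NT2 : Prop :=
  ∀ s : ℝ, 0 < s → s < 1 → ∀ ε : ℝ, 0 < ε → ∀ᶠ N : ℕ in atTop, ∀ m k : ℕ, N ≤ 2 * m → m ≤ 2 * N → Full m k →
    (s - ε) * un k (fun y => r ⌊(N : ℝ) ^ (s / 2)⌋₊ m (2 * y + 1)) ≤ un k (fun y => PrimeIn m (2 * y + 1)) ∧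
    un k (fun y => PrimeIn m (2 * y + 1)) ≤ (s + ε) * un k (fun y => r ⌊(N : ℝ) ^ (s / 2)⌋₊ m (2 * y + 1))

/-- NT3 (from PRD). Proof: the product of `1 - 1 / l` over the odd primes `l ≤ z` is at most `exp (- ∑ 1/l) ≤ C / log z`
(`Pool.Agent.Helper601.Mertens.mertens_inv` or Mathlib's/any lower bound `∑_{l ≤ z} 1/l ≥ log log z - C`). -/
def P_NT3 : Prop :=
  ∃ C : ℝ, 0 < C ∧ ∀ z m k : ℕ, 2 ≤ z → z ^ 2 ≤ m → Full m k →
    un k (fun y => r z m (2 * y + 1)) ≤ C / Real.log z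

/-! ## The theorems -/

/-- AS (from RUN, ST2, FLB, LNK, RCH, IND, PR, NT1, BAD). Almost surely all large `N` give Goldbach pairs, and `N - g_N` is at most
`N ^ (1/2 + ε)`. Proof: fix `ε = 1 / i ≤ 1 / 4` (countably many suffice), let `N` be large, `z = √(2 N) + 1` (`Nat.sqrt`),
`K = ⌈(log N) ^ 4⌉`, `T = 3 + K (2 z + 1)`, `B = ⌊N ^ (1/2 + ε/4)⌋ ≥ T`, `j ≥ 20 / ε` fixed, `H = ⌊N ^ (1/2 + ε)⌋ - 2`,
`L = 0`; then `3 ^ j (1 + K B + T) ≤ H`, `Glob z B N T H L` and `Ok z B N T H K j 3 (N - (N + 1) % 2)`. `δ = c₁ / (log (2 N)) ^ 2` with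
`c₁ = min (c₀ ^ 2) …` (PR and NT1: `P (R) = un · un ≥ (c₀ / log (2N)) ^ 2` for `c < N`, and `≥ c₀ / log N` for `c = N`; `M` is
`Full`), `β = C z N ^ (ε/16) / B ≤ N ^ (- ε/8)` (BAD). IND with `Q = True`, `ρ₁ = ρ₂ = 1`, `e₀ = 0`: the probability that
`Reach z B N True K j` fails is at most `(1 - δ) ^ K + (K β) ^ (j + 1) ≤ exp (- δ K) + N ^ (-2)`, summable. Borel-Cantelli. If
`Reach` holds then LNK gives `c'` with `R z N c'`, so `Free N c'` by RCH (4) (`2 N < (z + 1) ^ 2`), and FLB (3):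
`fl = c'`; by RUN, ST2: `F + 1 = fl x N 2 N = fl x N 3 (N - (N + 1) % 2) = c'`, `N - F ≤ H + 1`. -/
def P_AS : Prop :=
  ∀ (Ω : Type) [MeasurableSpace Ω] (M : ℕ → ℕ) (P : Measure Ω) (Y : ℕ → Ω → ℕ), (∀ m, Full m (M m)) → Model M P Y →
    ∀ᵐ ω ∂P, ∀ ε : ℝ, 0 < ε → ∀ᶠ N : ℕ in atTop,
      Free N (F (par fun m => Y m ω) N + 1) (par (fun m => Y m ω) (F (par fun m => Y m ω) N + 1))
        (par (fun m => Y m ω) (2 * N - (F (par fun m => Y m ω) N + 1))) ∧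
      (N : ℝ) - F (par fun m => Y m ω) N ≤ (N : ℝ) ^ (1 / 2 + ε)

/-- LAW (from RUN, ST2, LOW, UP, RCH, IND, PR, NT1, NT2, NT3, BAD). The limit law of the loss. Proof: as TR LAW
(`H383/TR/T_LAW.lean`). Write `w = N ^ (t/2)`, `N` large, `K = ⌈(log N) ^ 4⌉`, `j = 0`, `n = 3`, `c = N - (N + 1) % 2`,
`F + 1 = fl x N 3 c` (RUN, ST2). For `0 < s < 1` let `z = ⌊N ^ (s/2)⌋`, `T = 3 + K (2 z + 1)`, `B = ⌊N ^ (s/2 + η)⌋`,
`H = 1 + K B + T`; `δ = c₁ / (log (2 N)) ^ 2`, `β = C z N ^ (η/2) / B`, so `(1 - δ) ^ K → 0`, `K β → 0`. For odd `c < N`, `N ≤ c + H`: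
`P (R ∧ Free) = P (Free) = un (PrimeIn c) · un (PrimeIn (2 N - c))` lies between `(s - ε) ^ 2 P (R)` and `(s + ε) ^ 2 P (R)` (PR, NT2
for `m = c` and `m = 2 N - c`; `0 < ε < s`), and for `c = N` (where `2 N - c = c`) the error term `e₀ = 4 C' / log z ≥ 4 P (R)` (NT3)
makes the hypothesis true; `e₀ → 0`.
LOWER BOUND: `s < t`, `η = (t - s) / 8`: `H + 1 ≤ w`, so by LOW `Reach (Free)` implies `N - F ≤ w`, and by IND
`P (N - F ≤ w) ≥ (s - ε) ^ 2 (1 - (1 - δ) ^ K - K β) - e₀`. UPPER BOUND (`t < 1`): `t < s < 1`, `η` with `s / 2 + η < 1`: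
`L = ⌊N / 2⌋`, `Glob`, `z ^ 2 ≤ L`, `T + 2 √(2 N) + z + 2 ≤ L`, `z ≥ w`. If `N - F ≤ w` then `fl + z ≤ N` fails, so by UP `Reach (¬ Free)`
fails, and by RCH (3) `Reach (Free)` holds or `Reach (True)` fails:
`P (N - F ≤ w) ≤ (s + ε) ^ 2 + e₀ + (1 - δ) ^ K + K β`. Let `ε → 0`, `s → t`. (`T ≤ B` for large `N`.) -/
def P_LAW : Prop :=
  ∀ (Ω : Type) [MeasurableSpace Ω] (M : ℕ → ℕ) (P : Measure Ω) (Y : ℕ → Ω → ℕ), (∀ m, Full m (M m)) → Model M P Y →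
    ∀ t : ℝ, 0 < t → t ≤ 1 →
      Tendsto (fun N : ℕ => P.real {ω | (N : ℝ) - F (par fun m => Y m ω) N ≤ (N : ℝ) ^ (t / 2)}) atTop (𝓝 (t ^ 2))

/-- LLN (from GEN). As TR LLN (`H969/TR/T_LLN.lean`), but `A N` depends on the coordinates in a two-sided window
`|i - N| ≤ √N + 6`; the events `A N`, `A N'` with `N' > N` are independent if `N + √N + 6 < N' - √N' - 6`, so
`Var (S x) ≤ x (4 √x + 25)`. -/
def P_LLN : Prop :=
  ∀ (Ω : Type) [MeasurableSpace Ω] (P : Measure Ω) (X : ℕ → Ω → ℕ), IsProbabilityMeasure P →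
    (∀ i, Measurable (X i)) → iIndepFun X P → ∀ (A : ℕ → (ℕ → ℕ) → Prop) (θ : ℝ),
    (∀ (N : ℕ) (v w : ℕ → ℕ), (∀ i, N ≤ i + Nat.sqrt N + 6 → i ≤ N + Nat.sqrt N + 6 → v i = w i) → (A N v ↔ A N w)) →
    Tendsto (fun N : ℕ => P.real {ω | A N fun i => X i ω}) atTop (𝓝 θ) →
    ∀ᵐ ω ∂P, Tendsto (fun x : ℕ =>
      (open Classical in (((range x).filter (fun N => A N fun i => X i ω)).card : ℝ)) / x) atTop (𝓝 θ)

/-- DEN (from RUN, FLB, LAW, LLN). As TR DEN (`H363/TR/T_DEN.lean`). `A N v` is `3 ≤ N ∧ (N : ℝ) - F (par v) N ≤ N ^ (t/2)`; for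
`N ≥ 3` it is `W ≤ fl (par v) N 2 N` with `W = ⌈N + 1 - N ^ (t/2)⌉₊` (RUN), so by FLB (2) it depends only on the `v i` and
`v (2 N - i)` with `W ≤ i ≤ N`. -/
def P_DEN : Prop :=
  ∀ (Ω : Type) [MeasurableSpace Ω] (M : ℕ → ℕ) (P : Measure Ω) (Y : ℕ → Ω → ℕ), (∀ m, Full m (M m)) → Model M P Y →
    ∀ᵐ ω ∂P, ∀ t : ℝ, 0 < t → t ≤ 1 → Tendsto (fun x : ℕ =>
      (open Classical in (((range x).filter (fun N : ℕ =>
        (N : ℝ) - F (par fun m => Y m ω) N ≤ (N : ℝ) ^ (t / 2))).card : ℝ)) / x) atTop (𝓝 (t ^ 2))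

end Pool.Agent.H705.GB
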